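import Mathlib

/-!
# Crouzeix's inequality with constant 2 for polynomials of degree at most two

Basic inequalities: the quadratic forms `IH` and `IJ` attached to an operator whose numerical
range lies in a vertical (horizontal) strip, and the classical bound `‖T‖ ≤ 2 w(T)`.
-/

namespace Pool.Agent.Helper85.Crouzeix

variable {E : Type*} [NormedAddCommGroup E] [InnerProductSpace ℂ E]

/-- The real part of the inner product. -/
noncomputable def ri (u v : E) : ℝ := (inner ℂ u v : ℂ).re

theorem ri_add_left (u u' v : E) : ri (u + u') v = ri u v + ri u' v := by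
  simp [ri]

theorem ri_add_right (u v v' : E) : ri u (v + v') = ri u v + ri u v' := by
  simp [ri]

theorem ri_sub_left (u u' v : E) : ri (u - u') v = ri u v - ri u' v := by
  simp [ri]

theorem ri_sub_right (u v v' : E) : ri u (v - v') = ri u v - ri u v' := by
  simp [ri]

theorem ri_neg_left (u v : E) : ri (-u) v = -ri u v := by
  simp [ri, inner_neg_left]

theorem ri_neg_right (u v : E) : ri u (-v) = -ri u v := by
  simp [ri, inner_neg_right]

theorem ri_smul_left (a : ℝ) (u v : E) : ri (a • u) v = a * ri u v := by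
  rw [ri, ← Complex.coe_smul, inner_smul_left]
  simp [ri]

theorem ri_smul_right (a : ℝ) (u v : E) : ri u (a • v) = a * ri u v := by
  rw [ri, ← Complex.coe_smul, inner_smul_right]
  simp [ri]

theorem ri_comm (u v : E) : ri u v = ri v u := by
  rw [ri, ri, ← inner_conj_symm v u, Complex.conj_re]

theorem ri_self (u : E) : ri u u = ‖u‖ ^ 2 := by
  have := inner_self_eq_norm_sq (𝕜 := ℂ) u
  simpa [ri] using this

theorem ri_self_nonneg (u : E) : 0 ≤ ri u u := by
  rw [ri_self]; positivity

theorem ri_I_left (u v : E) : ri (Complex.I • u) v = (inner ℂ u v : ℂ).im := by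
  rw [ri, inner_smul_left]
  simp

theorem ri_I_I (u v : E) : ri (Complex.I • u) (Complex.I • v) = ri u v := by
  rw [ri, ri, inner_smul_right, inner_smul_left, ← mul_assoc]
  simp

/-- The inequality coming from a bound on the real part. -/
theorem IH (B : E →ₗ[ℂ] E) {a : ℝ} (ha : 0 < a)
    (h : ∀ v : E, |(inner ℂ v (B v) : ℂ).re| ≤ a * ri v v) (u v : E) :
    0 ≤ a ^ 2 * ri u u + ri v v - ri u (B v) - ri (B u) v := by
  have h1 := h (a • u + v)
  have h2 := h (a • u - v)
  change |ri _ _| ≤ _ at h1
  change |ri _ _| ≤ _ at h2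
  have e1 : B (a • u) = a • B u := LinearMap.map_smul_of_tower B a u
  simp only [map_add, map_sub, e1, ri_add_left, ri_add_right, ri_sub_left,
    ri_sub_right, ri_smul_left, ri_smul_right] at h1 h2
  have c1 := ri_comm u v
  have c2 := ri_comm (B u) v
  have h1' := (abs_le.mp h1).2
  have h2' := (abs_le.mp h2).1
  have key : 0 ≤ (2 * a) * (a ^ 2 * ri u u + ri v v - ri u (B v) - ri (B u) v) := by
    rw [c2]
    rw [c1] at h1' h2'
    linarith [h1', h2']
  exact nonneg_of_mul_nonneg_right key (by positivity)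

/-- The inequality coming from a bound on the imaginary part. -/
theorem IJ (B : E →ₗ[ℂ] E) {b : ℝ} (hb : 0 < b)
    (h : ∀ v : E, |(inner ℂ v (B v) : ℂ).im| ≤ b * ri v v) (u w : E) :
    0 ≤ b ^ 2 * ri w w + ri u u - ri u (B w) + ri (B u) w := by
  have h1 := h (b • w + Complex.I • u)
  have h2 := h (b • w - Complex.I • u)
  rw [← ri_I_left] at h1 h2
  have e1 : B (b • w) = b • B w := LinearMap.map_smul_of_tower B b w
  have e2 : Complex.I • (b • w) = b • (Complex.I • w) := smul_comm _ _ _
  have e3 : Complex.I • (Complex.I • u) = -u := by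
    rw [smul_smul, Complex.I_mul_I, neg_one_smul]
  simp only [map_add, map_sub, map_smul, e1, e2, e3, smul_add, smul_sub, ri_add_left,
    ri_add_right, ri_sub_left, ri_sub_right, ri_smul_left,
    ri_smul_right, ri_I_I, ri_neg_left] at h1 h2
  have c1 := ri_comm (Complex.I • u) w
  have c2 := ri_comm (B u) w
  have h1' := (abs_le.mp h1).1
  have h2' := (abs_le.mp h2).2
  have h1'' := (abs_le.mp h1).2
  have h2'' := (abs_le.mp h2).1
  have key : 0 ≤ (2 * b) * (b ^ 2 * ri w w + ri u u - ri u (B w) + ri (B u) w) := by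
    rw [c2]
    rw [c1] at h1' h2' h1'' h2''
    linarith [h1', h2', h1'', h2'']
  exact nonneg_of_mul_nonneg_right key (by positivity)

/-- If the real and the imaginary parts of `⟪v, T v⟫` are at most `‖v‖ ^ 2`, then
`‖T x‖ ≤ 2 ‖x‖`. -/
theorem norm_le_two (T : E →ₗ[ℂ] E)
    (hre : ∀ v : E, |(inner ℂ v (T v) : ℂ).re| ≤ 1 * ri v v)
    (him : ∀ v : E, |(inner ℂ v (T v) : ℂ).im| ≤ 1 * ri v v) (x : E) :
    ri (T x) (T x) ≤ 4 * ri x x := by
  have h1 := IH T one_pos hre (T x) ((2 : ℝ) • x)
  have h2 := IJ T one_pos him (T x) ((2 : ℝ) • x)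
  have e1 : T ((2 : ℝ) • x) = (2 : ℝ) • T x := LinearMap.map_smul_of_tower T (2 : ℝ) x
  simp only [e1, ri_smul_left, ri_smul_right] at h1 h2
  linarith [h1, h2]

end Pool.Agent.Helper85.Crouzeix
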