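import Mathlib

/-!
# Scalar facts about complex numbers `z` with `|z ^ 2 - γ| ≤ 1`, in homogeneous form

`X`, `Y` are the real and imaginary parts of `z = ⟪v, B v⟫` and `n = ‖v‖ ^ 2`.
-/

namespace Pool.Agent.Helper85.Crouzeix

theorem re_sq {X Y n γ : ℝ} (h : (X ^ 2 - Y ^ 2 - γ * n ^ 2) ^ 2 + (2 * X * Y) ^ 2 ≤ n ^ 4) :
    (X ^ 2 + Y ^ 2 - γ * n ^ 2) ^ 2 + 4 * γ * n ^ 2 * Y ^ 2 ≤ n ^ 4 := by
  linarith [h]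

theorem f1 {X Y n γ : ℝ} (hγ : 0 ≤ γ)
    (h : (X ^ 2 - Y ^ 2 - γ * n ^ 2) ^ 2 + (2 * X * Y) ^ 2 ≤ n ^ 4) :
    X ^ 2 + Y ^ 2 ≤ (1 + γ) * n ^ 2 := by
  have h' := re_sq h
  have h2 : (X ^ 2 + Y ^ 2 - γ * n ^ 2) ^ 2 ≤ (n ^ 2) ^ 2 := by
    have : 0 ≤ 4 * γ * n ^ 2 * Y ^ 2 := by positivity
    linarith
  have := (abs_le_of_sq_le_sq' h2 (by positivity)).2
  linarith

theorem f2 {X Y n γ : ℝ} (hγ1 : γ ≤ 1 / 2)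
    (h : (X ^ 2 - Y ^ 2 - γ * n ^ 2) ^ 2 + (2 * X * Y) ^ 2 ≤ n ^ 4) :
    Y ^ 2 ≤ (1 - γ) * n ^ 2 := by
  by_contra hc
  push Not at hc
  have h' := re_sq h
  have hn : 0 ≤ n ^ 2 := sq_nonneg n
  have h3 : 0 ≤ Y ^ 2 - γ * n ^ 2 := by nlinarith
  have h4 : 0 ≤ X ^ 2 * (Y ^ 2 - γ * n ^ 2) := mul_nonneg (sq_nonneg X) h3
  have h5 : n ^ 2 < Y ^ 2 + γ * n ^ 2 := by linarith
  have h6 : (n ^ 2) ^ 2 < (Y ^ 2 + γ * n ^ 2) ^ 2 := by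
    exact pow_lt_pow_left₀ h5 hn two_ne_zero
  have h7 : 0 ≤ (X ^ 2) ^ 2 := by positivity
  linarith

theorem f3 {X Y n γ : ℝ} (hγ : 0 ≤ γ)
    (h : (X ^ 2 - Y ^ 2 - γ * n ^ 2) ^ 2 + (2 * X * Y) ^ 2 ≤ n ^ 4) :
    4 * γ * Y ^ 2 ≤ n ^ 2 := by
  have h' := re_sq h
  rcases eq_or_ne n 0 with rfl | hn
  · have h1 := f1 hγ h
    have : Y ^ 2 ≤ 0 := by nlinarith [sq_nonneg X]
    nlinarith [sq_nonneg Y]
  · have hn2 : 0 < n ^ 2 := by positivity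
    have h2 : n ^ 2 * (4 * γ * Y ^ 2) ≤ n ^ 2 * n ^ 2 := by
      have : 0 ≤ (X ^ 2 + Y ^ 2 - γ * n ^ 2) ^ 2 := sq_nonneg _
      linarith
    exact le_of_mul_le_mul_left h2 hn2

theorem f4 {X Y n γ : ℝ}
    (h : (X ^ 2 - Y ^ 2 - γ * n ^ 2) ^ 2 + (2 * X * Y) ^ 2 ≤ n ^ 4) :
    (γ - 1) * n ^ 2 ≤ X ^ 2 - Y ^ 2 := by
  have h2 : (X ^ 2 - Y ^ 2 - γ * n ^ 2) ^ 2 ≤ (n ^ 2) ^ 2 := by
    have : 0 ≤ (2 * X * Y) ^ 2 := sq_nonneg _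
    linarith
  have := (abs_le_of_sq_le_sq' h2 (by positivity)).1
  linarith

/-- `Re (m z)` for `m ^ 2 = ±i - γ`. -/
theorem f5 {X Y n γ m1 m2 s : ℝ} (hγ : 0 ≤ γ) (hγ1 : γ ≤ 1) (hs : s ^ 2 = 1)
    (hm1 : m1 ^ 2 - m2 ^ 2 = -γ) (hm2 : 2 * m1 * m2 = s)
    (h : (X ^ 2 - Y ^ 2 - γ * n ^ 2) ^ 2 + (2 * X * Y) ^ 2 ≤ n ^ 4) :
    (m1 * X - m2 * Y) ^ 2 ≤ n ^ 2 := by
  set M := m1 ^ 2 + m2 ^ 2 with hM
  have hM2 : M ^ 2 = 1 + γ ^ 2 := by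
    have : M ^ 2 = (m1 ^ 2 - m2 ^ 2) ^ 2 + (2 * m1 * m2) ^ 2 := by rw [hM]; ring
    rw [this, hm1, hm2, hs]; ring
  set R := X ^ 2 + Y ^ 2 with hR
  set D := X ^ 2 - Y ^ 2 with hD
  set P := s * (2 * X * Y) with hP
  have hR2 : R ^ 2 = D ^ 2 + P ^ 2 := by
    rw [hR, hD, hP, mul_pow s, hs]; ring
  have h' : (D - γ * n ^ 2) ^ 2 + P ^ 2 ≤ n ^ 4 := by
    rw [hP, mul_pow s, hs]; linarith
  have hn : 0 ≤ n ^ 2 := sq_nonneg n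
  have e : (m1 * X - m2 * Y) ^ 2 = (M * R - γ * D - P) / 2 := by
    have : P = 2 * m1 * m2 * (2 * X * Y) := by rw [hP, ← hm2]
    rw [this, hM, hR, hD]
    have h3 : γ = -(m1 ^ 2 - m2 ^ 2) := by linarith
    rw [h3]; ring
  rw [e]
  have hP1 : -(n ^ 2) ≤ P := by
    have : P ^ 2 ≤ (n ^ 2) ^ 2 := by
      have : 0 ≤ (D - γ * n ^ 2) ^ 2 := sq_nonneg _
      linarith
    exact (abs_le_of_sq_le_sq' this hn).1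
  have hD1 : -(n ^ 2) ≤ D - γ * n ^ 2 ∧ D - γ * n ^ 2 ≤ n ^ 2 := by
    have : (D - γ * n ^ 2) ^ 2 ≤ (n ^ 2) ^ 2 := by
      have : 0 ≤ P ^ 2 := sq_nonneg _
      linarith
    exact abs_le_of_sq_le_sq' this hn
  -- c = D - γ n², d = P
  set c := D - γ * n ^ 2 with hc
  have hDc : D = c + γ * n ^ 2 := by rw [hc]; ring
  have key : 0 ≤ (n ^ 2 + P) * ((1 - γ ^ 2) * P + (3 + 3 * γ ^ 2) * n ^ 2 + 2 * γ * c) := by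
    apply mul_nonneg (by linarith)
    have h1 : 0 ≤ (1 - γ ^ 2) * (P + n ^ 2) := mul_nonneg (by nlinarith) (by linarith)
    have h2 : 0 ≤ γ * (c + n ^ 2) := mul_nonneg hγ (by linarith [hD1.1])
    have h3 : 0 ≤ (2 + 4 * γ ^ 2 - 2 * γ) * n ^ 2 := mul_nonneg (by nlinarith [sq_nonneg γ]) hn
    linarith
  have hpos : 0 ≤ 2 * n ^ 2 + γ * D + P := by
    rw [hDc]
    have h2 : 0 ≤ γ * (c + n ^ 2) := mul_nonneg hγ (by linarith [hD1.1])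
    have h3 : 0 ≤ (1 - γ) * n ^ 2 := mul_nonneg (by linarith) hn
    have h4 : 0 ≤ γ ^ 2 * n ^ 2 := by positivity
    linarith
  have hsq : (M * R) ^ 2 ≤ (2 * n ^ 2 + γ * D + P) ^ 2 := by
    rw [mul_pow, hM2, hR2, hDc]
    linarith
  have := (abs_le_of_sq_le_sq' hsq hpos).2
  linarith

theorem discA {q : ℝ} (hq0 : 0 < q) (hq1 : q ≤ 1 / 4) :
    2 / 9 ≤ 2 - 16 * q + 36 * q ^ 2 + 8 * q ^ 3 - 32 * q ^ 4 := by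
  have h3 : 0 ≤ 8 * q ^ 3 * (1 - 4 * q) := mul_nonneg (by positivity) (by linarith)
  nlinarith [sq_nonneg (6 * q - 4 / 3)]

theorem discC {q : ℝ} (hq0 : 0 < q) (hq1 : q ≤ 1 / 4) :
    1 / 16 ≤ 1 / 4 + q / 2 - 5 * q ^ 2 := by
  nlinarith

theorem discB {q : ℝ} (hq0 : 0 < q) (hq1 : q ≤ 1 / 4) :
    (4 * q ^ 2 - 5 * q + 1 / 2) ^ 2 ≤ 1 / 4 := by
  have h4 : -(1 / 2) ≤ 4 * q ^ 2 - 5 * q + 1 / 2 := by nlinarith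
  have h5 : 4 * q ^ 2 - 5 * q + 1 / 2 ≤ 1 / 2 := by nlinarith
  nlinarith

theorem discD {q : ℝ} (hq0 : 0 < q) (hq1 : q ≤ 1 / 4) :
    q * (4 * q - 1) ^ 2 ≤ 1 / 16 := by
  have h6 : (4 * q - 1) ^ 2 ≤ 1 - 4 * q := by nlinarith
  have h7 : q * (4 * q - 1) ^ 2 ≤ q * (1 - 4 * q) := mul_le_mul_of_nonneg_left h6 hq0.le
  nlinarith [sq_nonneg (8 * q - 1)]

theorem disc {q : ℝ} (hq0 : 0 < q) (hq1 : q ≤ 1 / 4) :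
    (q * (4 * q - 1) * (4 * q ^ 2 - 5 * q + 1 / 2)) ^ 2
      ≤ 4 * (q * (2 - 16 * q + 36 * q ^ 2 + 8 * q ^ 3 - 32 * q ^ 4))
        * (1 / 4 + q / 2 - 5 * q ^ 2) := by
  have hA := discA hq0 hq1
  have hC := discC hq0 hq1
  have hB := discB hq0 hq1
  have hB2 := discD hq0 hq1
  have hAC := mul_le_mul hA hC (by norm_num) (by linarith)
  have hB3 := mul_le_mul hB2 hB (by positivity) (by norm_num)
  generalize 2 - 16 * q + 36 * q ^ 2 + 8 * q ^ 3 - 32 * q ^ 4 = A at *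
  generalize 1 / 4 + q / 2 - 5 * q ^ 2 = C at *
  generalize 4 * q ^ 2 - 5 * q + 1 / 2 = F at *
  generalize 4 * q - 1 = G at *
  have hfin : q * G ^ 2 * F ^ 2 ≤ 4 * (A * C) := by linarith
  have := mul_le_mul_of_nonneg_left hfin hq0.le
  linarith

end Pool.Agent.Helper85.Crouzeix
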