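import Pool.Agent.Helper85.Crouzeix.Basic
import Pool.Agent.Helper85.Crouzeix.Scalar

/-!
# The three cases of the quadratic Crouzeix inequality
-/

namespace Pool.Agent.Helper85.Crouzeix

variable {E : Type*} [NormedAddCommGroup E] [InnerProductSpace ℂ E]

/-- The homogeneous form of `|z ^ 2 - γ| ≤ 1` on the numerical range of `B`. -/
def Hyp (B : E →ₗ[ℂ] E) (γ : ℝ) : Prop :=
  ∀ v : E, ((inner ℂ v (B v) : ℂ).re ^ 2 - (inner ℂ v (B v) : ℂ).im ^ 2 - γ * (ri v v) ^ 2) ^ 2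
    + (2 * (inner ℂ v (B v) : ℂ).re * (inner ℂ v (B v) : ℂ).im) ^ 2 ≤ (ri v v) ^ 4

theorem abs_le_mul_of_sq {X a n : ℝ} (ha : 0 ≤ a) (hn : 0 ≤ n) (h : X ^ 2 ≤ a ^ 2 * n ^ 2) :
    |X| ≤ a * n := by
  apply abs_le_of_sq_le_sq _ (mul_nonneg ha hn)
  rw [mul_pow]; exact h

theorem map_real_smul (B : E →ₗ[ℂ] E) (r : ℝ) (z : E) : B (r • z) = r • B z :=
  LinearMap.map_smul_of_tower B r z

/-- `IH` for `B` with `a ^ 2 = 1 + γ`. -/
theorem IH' {B : E →ₗ[ℂ] E} {γ : ℝ} (hγ : 0 ≤ γ) (h : Hyp B γ) (u v : E) :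
    0 ≤ (1 + γ) * ri u u + ri v v - ri u (B v) - ri (B u) v := by
  have ha : 0 < Real.sqrt (1 + γ) := Real.sqrt_pos.mpr (by linarith)
  have ha2 : Real.sqrt (1 + γ) ^ 2 = 1 + γ := Real.sq_sqrt (by linarith)
  have := IH B ha (fun v => abs_le_mul_of_sq ha.le (ri_self_nonneg v) (by
    rw [ha2]
    have := f1 hγ (h v)
    linarith [sq_nonneg (inner ℂ v (B v) : ℂ).im])) u v
  rwa [ha2] at this

/-- `IJ` for `B` with `b ^ 2 = 1 - γ`, `γ ≤ 1 / 2`. -/
theorem IJ' {B : E →ₗ[ℂ] E} {γ : ℝ} (hγ : γ ≤ 1 / 2) (h : Hyp B γ) (u w : E) :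
    0 ≤ (1 - γ) * ri w w + ri u u - ri u (B w) + ri (B u) w := by
  have ha : 0 < Real.sqrt (1 - γ) := Real.sqrt_pos.mpr (by linarith)
  have ha2 : Real.sqrt (1 - γ) ^ 2 = 1 - γ := Real.sq_sqrt (by linarith)
  have := IJ B ha (fun v => abs_le_mul_of_sq ha.le (ri_self_nonneg v) (by
    rw [ha2]
    exact f2 hγ (h v))) u w
  rwa [ha2] at this

/-- `IJ` for `B` with `b ^ 2 = 1 / (4 γ)`, `γ > 0`. -/
theorem IJ'' {B : E →ₗ[ℂ] E} {γ : ℝ} (hγ : 0 < γ) (h : Hyp B γ) (u w : E) :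
    0 ≤ ri w w + 4 * γ * (ri u u - ri u (B w) + ri (B u) w) := by
  have hb : 0 < 1 / (2 * Real.sqrt γ) := by
    have := Real.sqrt_pos.mpr hγ
    positivity
  have hb2 : (1 / (2 * Real.sqrt γ)) ^ 2 = 1 / (4 * γ) := by
    rw [div_pow, mul_pow, Real.sq_sqrt hγ.le]; norm_num
  have := IJ B hb (fun v => abs_le_mul_of_sq hb.le (ri_self_nonneg v) (by
    rw [hb2]
    have := f3 hγ.le (h v)
    rw [div_mul_eq_mul_div, le_div_iff₀ (by positivity)]
    linarith)) u w
  rw [hb2] at this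
  have h2 := mul_nonneg (show (0 : ℝ) ≤ 4 * γ by positivity) this
  have e : 4 * γ * (1 / (4 * γ) * ri w w + ri u u - ri u (B w) + ri (B u) w)
      = ri w w + 4 * γ * (ri u u - ri u (B w) + ri (B u) w) := by
    field_simp
    ring
  rwa [e] at h2

/-- The auxiliary inequality giving the bound on the imaginary part of `⟪v, B ^ 2 v⟫`. -/
theorem im_aux (B : E →ₗ[ℂ] E) (m κ ω : ℂ) (hm : m ^ 2 = ω * κ) (hκ : κ.re = 1)
    (h : ∀ v : E, |(m * inner ℂ v (B v)).re| ≤ 1 * ri v v) (v : E) :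
    (ω * inner ℂ v (B (B v))).re ≤ ri v v := by
  have h1 := IH (m • B) one_pos (fun v => by
    simpa [LinearMap.smul_apply, inner_smul_right] using h v) (κ • v) ((m • B) v)
  simp only [LinearMap.smul_apply, map_smul, ri, inner_smul_left, inner_smul_right] at h1
  have e1 : (κ * ((starRingEnd ℂ) κ * inner ℂ v v)).re = Complex.normSq κ * ri v v := by
    rw [← mul_assoc, Complex.mul_conj, ri, Complex.re_ofReal_mul]
  have e2 : (m * (m * ((starRingEnd ℂ) κ * inner ℂ v (B (B v))))).re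
      = Complex.normSq κ * (ω * inner ℂ v (B (B v))).re := by
    have : m * (m * ((starRingEnd ℂ) κ * inner ℂ v (B (B v))))
        = ((Complex.normSq κ : ℝ) : ℂ) * (ω * inner ℂ v (B (B v))) := by
      rw [Complex.normSq_eq_conj_mul_self]
      linear_combination ((starRingEnd ℂ) κ * inner ℂ v (B (B v))) * hm
    rw [this, Complex.re_ofReal_mul]
  have hreal : (m * ((starRingEnd ℂ) m * inner ℂ (B v) (B v)))
      = ((Complex.normSq m * ri (B v) (B v) : ℝ) : ℂ) := by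
    rw [← mul_assoc, Complex.mul_conj, Complex.ofReal_mul, ri]
    congr 1
    rw [inner_self_eq_norm_sq_to_K]
    simp [← Complex.ofReal_pow]
  have e3 : (m * ((starRingEnd ℂ) κ * ((starRingEnd ℂ) m * inner ℂ (B v) (B v)))).re
      = Complex.normSq m * ri (B v) (B v) := by
    have : m * ((starRingEnd ℂ) κ * ((starRingEnd ℂ) m * inner ℂ (B v) (B v)))
        = (starRingEnd ℂ) κ * (m * ((starRingEnd ℂ) m * inner ℂ (B v) (B v))) := by ring
    rw [this, hreal, Complex.re_mul_ofReal, Complex.conj_re, hκ, one_mul]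
  rw [e1, e2, e3, hreal, Complex.ofReal_re] at h1
  have hpos : 0 < Complex.normSq κ := by
    rw [Complex.normSq_pos]
    rintro rfl
    simp at hκ
  have h2 : Complex.normSq κ * (ω * inner ℂ v (B (B v))).re ≤ Complex.normSq κ * ri v v := by
    linarith
  exact le_of_mul_le_mul_left h2 hpos

/-- The bound on the imaginary part of `⟪v, B ^ 2 v⟫` when `γ ≤ 1`. -/
theorem im_bound {B : E →ₗ[ℂ] E} {γ : ℝ} (hγ : 0 ≤ γ) (hγ1 : γ ≤ 1) (h : Hyp B γ) (v : E) :
    |(inner ℂ v (B (B v)) : ℂ).im| ≤ ri v v := by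
  have main : ∀ s : ℝ, s ^ 2 = 1 → ((s * Complex.I) * inner ℂ v (B (B v))).re ≤ ri v v := by
    intro s hs
    obtain ⟨m, hm⟩ := IsAlgClosed.exists_pow_nat_eq ((s * Complex.I) * (1 + s * γ * Complex.I) : ℂ)
      (n := 2) two_pos
    refine im_aux B m (1 + s * γ * Complex.I) (s * Complex.I) hm (by simp) ?_ v
    intro w
    have hm1 : m.re ^ 2 - m.im ^ 2 = -γ := by
      have := congrArg Complex.re hm
      simp [pow_two] at this
      have h2 : s * (s * γ) = γ := by rw [← mul_assoc, ← pow_two, hs, one_mul]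
      rw [h2] at this
      linarith
    have hm2 : 2 * m.re * m.im = s := by
      have := congrArg Complex.im hm
      simp [pow_two] at this
      linarith
    have h5 := f5 hγ hγ1 hs hm1 hm2 (h w)
    apply abs_le_mul_of_sq one_pos.le (ri_self_nonneg w)
    rw [Complex.mul_re]
    linarith
  have h1 := main 1 (by norm_num)
  have h2 := main (-1) (by norm_num)
  simp at h1 h2
  rw [abs_le]
  constructor <;> linarith

/-- Case I: `0 ≤ γ ≤ 1 / 2`. -/
theorem caseI {B : E →ₗ[ℂ] E} {γ : ℝ} (hγ : 0 ≤ γ) (hγ1 : γ ≤ 1 / 2) (h : Hyp B γ) (x : E) :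
    ri (B (B x) - γ • x) (B (B x) - γ • x) ≤ 4 * ri x x := by
  have key := norm_le_two (B.comp B - (γ : ℂ) • LinearMap.id) (fun v => ?_) (fun v => ?_) x
  · simpa only [LinearMap.sub_apply, LinearMap.comp_apply, LinearMap.smul_apply,
      LinearMap.id_apply, Complex.coe_smul] using key
  · have h1 := IH' hγ h v (B v)
    have h2 := IJ' hγ1 h (B v) v
    have e : (inner ℂ v ((B.comp B - (γ : ℂ) • LinearMap.id : E →ₗ[ℂ] E) v) : ℂ).re
        = ri v (B (B v)) - γ * ri v v := by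
      simp only [LinearMap.sub_apply, LinearMap.comp_apply, LinearMap.smul_apply,
        LinearMap.id_apply, inner_sub_right, inner_smul_right, Complex.sub_re,
        Complex.re_ofReal_mul, ri]
    rw [e, abs_le]
    have c := ri_comm (B (B v)) v
    rw [c] at h2
    constructor <;> linarith
  · have h1 := im_bound hγ (by linarith) h v
    have e : (inner ℂ v ((B.comp B - (γ : ℂ) • LinearMap.id : E →ₗ[ℂ] E) v) : ℂ).im
        = (inner ℂ v (B (B v)) : ℂ).im := by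
      have h0 : (inner ℂ v v : ℂ).im = 0 := inner_self_im (𝕜 := ℂ) v
      simp only [LinearMap.sub_apply, LinearMap.comp_apply, LinearMap.smul_apply,
        LinearMap.id_apply, inner_sub_right, inner_smul_right, Complex.sub_im,
        Complex.im_ofReal_mul, h0, mul_zero, sub_zero]
    rw [e, one_mul]
    exact h1

/-- Positivity of a `2 × 2` Gram form. -/
theorem gram2 (p q r : ℝ) (x z : E) (hr : 0 < r) (hd : q ^ 2 ≤ 4 * p * r) :
    0 ≤ p * ri x x + q * ri x z + r * ri z z := by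
  have h1 := ri_self_nonneg ((2 * r) • z + q • x)
  simp only [ri_add_left, ri_add_right, ri_smul_left, ri_smul_right] at h1
  rw [ri_comm z x] at h1
  have h2 : 0 ≤ (4 * p * r - q ^ 2) * ri x x :=
    mul_nonneg (by linarith) (ri_self_nonneg x)
  have h3 : 0 ≤ 4 * r * (p * ri x x + q * ri x z + r * ri z z) := by linarith
  exact nonneg_of_mul_nonneg_right h3 (by positivity)

/-- Case II: `1 / 2 ≤ γ ≤ 1`. -/
theorem caseII {B : E →ₗ[ℂ] E} {γ : ℝ} (hγ : 1 / 2 ≤ γ) (hγ1 : γ ≤ 1) (h : Hyp B γ) (x : E) :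
    ri (B (B x) - γ • x) (B (B x) - γ • x) ≤ 4 * ri x x := by
  have hγ0 : 0 < γ := by linarith
  have h1 := IH' hγ0.le h ((1 / 2 : ℝ) • x + (1 / 3 : ℝ) • B (B x)) (B x)
  have h2 := IJ'' hγ0 h (B x) ((2 : ℝ) • x - (2 / 3 : ℝ) • B (B x))
  set y := B x with hy
  set z := B y with hz
  set w := B z with hw
  simp only [map_add, map_sub, map_real_smul, ri_add_left, ri_add_right, ri_sub_left,
    ri_sub_right, ri_smul_left, ri_smul_right, ← hy, ← hw] at h1 h2 ⊢
  rw [ri_comm z x, ri_comm w y] at *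
  have hR := gram2 (9 * (10 * γ - 2 * γ ^ 2 - 3 * γ ^ 3 - 4)) (6 * (5 * γ ^ 2 - 10 * γ + 4))
    (13 * γ - 8 * γ ^ 2 - 4) x z (by nlinarith) (by
      have h3 : 0 ≤ 6 * γ * ((2 * γ - 1) * (1 - γ)) * (2 + γ - 2 * γ ^ 2) := by
        apply mul_nonneg
        · apply mul_nonneg (by positivity)
          exact mul_nonneg (by linarith) (by linarith)
        · nlinarith
      nlinarith [h3])
  have h1' := mul_nonneg (show (0 : ℝ) ≤ 72 * γ by positivity) h1
  have key : 0 ≤ (27 * γ) * (4 * ri x x - (ri z z - γ * ri x z - (γ * ri x z - γ * (γ * ri x x)))) := by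
    linarith [h1', h2, hR]
  have := nonneg_of_mul_nonneg_right key (by positivity)
  linarith

/-- Case III after the normalisation `B = h + ρ Y`, `δ = ρ ^ 2`. -/
theorem caseIII_core (Y : E →ₗ[ℂ] E) {δ : ℝ} (hδ : 0 < δ) (hδ1 : δ ≤ 1 / 2)
    (hH : ∀ u v : E, 0 ≤ ri u u + ri v v - ri u (Y v) - ri (Y u) v)
    (hJ : ∀ u w : E, 0 ≤ ri w w + (1 + 4 * δ ^ 2) * (ri u u - ri u (Y w) + ri (Y u) w)) (x : E) :
    ri (Y x + δ • (Y (Y x) - x)) (Y x + δ • (Y (Y x) - x)) ≤ 4 * ri x x := by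
  have hq1 : δ ^ 2 ≤ 1 / 4 := by nlinarith
  have hq0 : 0 < δ ^ 2 := by positivity
  have h1 := hH ((δ * (3 - 2 * δ ^ 2)) • x + Y x)
    ((2 - 2 * δ ^ 2) • x + (2 * δ) • Y x + (1 / 2 : ℝ) • Y (Y x))
  have h2 := hJ ((δ * (3 - 2 * δ ^ 2)) • x + Y x)
    ((2 : ℝ) • x - (δ * (1 + 4 * δ ^ 2)) • Y x - (1 / 2 : ℝ) • Y (Y x))
  set y := Y x with hy
  set z := Y y with hz
  set w := Y z with hw
  have hs1 := ri_self_nonneg (y - (2 * δ * (1 - 2 * δ ^ 2)) • x)
  have hs2 := ri_self_nonneg (δ • z - ((1 + 4 * δ ^ 2) / 2) • y)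
  have hR := gram2 _ _ _ x z (by linarith [discC hq0 hq1]) (disc hq0 hq1)
  have hy0 := ri_self_nonneg y
  simp only [map_add, map_sub, map_real_smul, ri_add_left, ri_add_right, ri_sub_left,
    ri_sub_right, ri_smul_left, ri_smul_right, ← hy, ← hz, ← hw] at h1 h2 hs1 hs2 ⊢
  rw [ri_comm z x] at h1 h2 ⊢
  rw [ri_comm z y] at h1 h2 hs2 ⊢
  rw [ri_comm y x] at h1 h2 hs1 ⊢
  have hD : 0 < 1 + 4 * δ ^ 2 := by positivity
  have h1' := mul_nonneg hD.le h1
  have hs1' := mul_nonneg (mul_nonneg hq0.le hD.le) hs1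
  have hs2' := mul_nonneg hq0.le hs2
  have hy0' := mul_nonneg (mul_nonneg (mul_nonneg hq0.le hD.le)
    (show 0 ≤ 1 / 4 - 4 * (δ ^ 2) ^ 2 by nlinarith)) hy0
  clear hJ hH hs1 hs2 hy0 h1
  generalize ri x x = a at *
  generalize ri x y = b at *
  generalize ri x z = c at *
  generalize ri x w = d at *
  generalize ri y y = e at *
  generalize ri y z = f at *
  generalize ri y w = g at *
  generalize ri z z = k at *
  clear_value y z w
  have key : 0 ≤ (2 * (1 + 4 * δ ^ 2)) * (4 * a - (e + δ * (f - b)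
      + δ * (f + δ * (k - c) - (b + δ * (c - a))))) := by
    linarith [h1', h2, hR, hs1', hs2', hy0']
  have := nonneg_of_mul_nonneg_right key (by positivity)
  linarith

end Pool.Agent.Helper85.Crouzeix
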