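import Pool.Agent.Helper85.Crouzeix.Cases

/-!
# The quadratic Crouzeix inequality in normalised form
-/

namespace Pool.Agent.Helper85.Crouzeix

variable {E : Type*} [NormedAddCommGroup E] [InnerProductSpace ℂ E]

theorem ri_eq_zero {v : E} (h : ri v v = 0) : v = 0 := by
  rw [ri_self] at h
  exact norm_eq_zero.mp (pow_eq_zero_iff two_ne_zero |>.mp h)

/-- If `γ > 1`, the real part of the numerical range of `B` has constant sign. -/
theorem sign_const {B : E →ₗ[ℂ] E} {γ : ℝ} (hγ : 1 < γ) (h : Hyp B γ) :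
    (∀ v : E, 0 ≤ ri v (B v)) ∨ (∀ v : E, ri v (B v) ≤ 0) := by
  by_contra hc
  push Not at hc
  obtain ⟨⟨u, hu⟩, ⟨v, hv⟩⟩ := hc
  set f : ℝ → ℝ := fun t => (1 - t) ^ 2 * ri u (B u) + (1 - t) * t * (ri u (B v) + ri v (B u))
    + t ^ 2 * ri v (B v) with hf
  have hfc : Continuous f := by rw [hf]; fun_prop
  have hfe : ∀ t : ℝ, ri ((1 - t) • u + t • v) (B ((1 - t) • u + t • v)) = f t := by
    intro t
    simp only [map_add, map_real_smul, ri_add_left, ri_add_right, ri_smul_left, ri_smul_right, hf]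
    ring
  have h0 : f 0 < 0 := by simp [hf, hu]
  have h1 : 0 < f 1 := by simp [hf, hv]
  obtain ⟨t, ht, hft⟩ := intermediate_value_Icc (zero_le_one' ℝ) hfc.continuousOn
    (show (0 : ℝ) ∈ Set.Icc (f 0) (f 1) from ⟨h0.le, h1.le⟩)
  have hre : (inner ℂ ((1 - t) • u + t • v) (B ((1 - t) • u + t • v)) : ℂ).re = 0 := by
    change ri _ _ = 0
    rw [hfe t, hft]
  have h4 := f4 (h ((1 - t) • u + t • v))
  rw [hre] at h4
  have hn : ri ((1 - t) • u + t • v) ((1 - t) • u + t • v) = 0 := by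
    have : (γ - 1) * ri ((1 - t) • u + t • v) ((1 - t) • u + t • v) ^ 2 ≤ 0 := by
      linarith [sq_nonneg (inner ℂ ((1 - t) • u + t • v) (B ((1 - t) • u + t • v)) : ℂ).im]
    have h5 : ri ((1 - t) • u + t • v) ((1 - t) • u + t • v) ^ 2 ≤ 0 := by
      by_contra hcc
      push Not at hcc
      have := mul_pos (sub_pos.mpr hγ) hcc
      linarith
    exact pow_eq_zero_iff two_ne_zero |>.mp (le_antisymm h5 (sq_nonneg _))
  have hz := ri_eq_zero hn
  have hz' : (1 - t) • u = -(t • v) := eq_neg_of_add_eq_zero_left hz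
  have h6 : (1 - t) ^ 2 * ri u (B u) = t ^ 2 * ri v (B v) := by
    have e1 : ri ((1 - t) • u) (B ((1 - t) • u)) = (1 - t) ^ 2 * ri u (B u) := by
      simp only [map_real_smul, ri_smul_left, ri_smul_right]; ring
    have e2 : ri (-(t • v)) (B (-(t • v))) = t ^ 2 * ri v (B v) := by
      simp only [map_neg, map_real_smul, ri_smul_left, ri_smul_right, ri_neg_left, ri_neg_right]
      ring
    rw [← e1, hz', e2]
  have h7 : t ^ 2 * ri v (B v) = 0 := by
    apply le_antisymm
    · rw [← h6]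
      exact mul_nonpos_of_nonneg_of_nonpos (sq_nonneg _) hu.le
    · exact mul_nonneg (sq_nonneg _) hv.le
  have ht0 : t = 0 := by
    rcases mul_eq_zero.mp h7 with h8 | h8
    · exact pow_eq_zero_iff two_ne_zero |>.mp h8
    · exact absurd h8 hv.ne'
  rw [h7, ht0] at h6
  norm_num at h6
  exact hu.ne h6

/-- Case III with the right lobe. -/
theorem caseIII_pos {B : E →ₗ[ℂ] E} {γ : ℝ} (hγ : 1 < γ) (h : Hyp B γ)
    (hs : ∀ v : E, 0 ≤ ri v (B v)) (x : E) :
    ri (B (B x) - γ • x) (B (B x) - γ • x) ≤ 4 * ri x x := by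
  set ap := Real.sqrt (γ + 1) with hap
  set am := Real.sqrt (γ - 1) with ham
  have hap2 : ap ^ 2 = γ + 1 := Real.sq_sqrt (by linarith)
  have ham2 : am ^ 2 = γ - 1 := Real.sq_sqrt (by linarith)
  have hap0 : 0 < ap := Real.sqrt_pos.mpr (by linarith)
  have ham0 : 0 < am := Real.sqrt_pos.mpr (by linarith)
  have hlt : am < ap := Real.sqrt_lt_sqrt (by linarith) (by linarith)
  set ρ := (ap - am) / 2 with hρ
  set k := (ap + am) / 2 with hk
  have hρ0 : 0 < ρ := by rw [hρ]; linarith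
  have hk0 : 0 < k := by rw [hk]; linarith
  have hkρ : k * ρ = 1 / 2 := by
    have : k * ρ = (ap ^ 2 - am ^ 2) / 4 := by rw [hk, hρ]; ring
    rw [this, hap2, ham2]; ring
  have hsum : k ^ 2 + ρ ^ 2 = γ := by
    have : k ^ 2 + ρ ^ 2 = (ap ^ 2 + am ^ 2) / 2 := by rw [hk, hρ]; ring
    rw [this, hap2, ham2]; ring
  have hρk : ρ < k := by rw [hρ, hk]; linarith
  have hδ1 : ρ ^ 2 ≤ 1 / 2 := by nlinarith
  have hkey : 4 * γ * ρ ^ 2 = 1 + 4 * (ρ ^ 2) ^ 2 := by
    have : 4 * γ * ρ ^ 2 = 4 * (k * ρ) ^ 2 + 4 * (ρ ^ 2) ^ 2 := by rw [← hsum]; ring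
    rw [this, hkρ]; ring
  -- the operator `Y`
  set Y : E →ₗ[ℂ] E := ((ρ⁻¹ : ℝ) : ℂ) • (B - (k : ℂ) • LinearMap.id) with hY
  have hYx : ∀ v, Y v = ρ⁻¹ • (B v - k • v) := by
    intro v
    simp only [hY, LinearMap.smul_apply, LinearMap.sub_apply, LinearMap.id_apply,
      Complex.coe_smul]
  have hBx : ∀ v, B v = k • v + ρ • Y v := by
    intro v
    rw [hYx, smul_smul, mul_inv_cancel₀ hρ0.ne', one_smul]
    abel
  have hinner : ∀ v, (inner ℂ v (B v) : ℂ) = (k * ri v v : ℝ) + (ρ : ℝ) * inner ℂ v (Y v) := by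
    intro v
    have h0 : (inner ℂ v v : ℂ) = (ri v v : ℝ) := by
      rw [ri_self, inner_self_eq_norm_sq_to_K]; simp
    conv_lhs => rw [hBx v]
    rw [inner_add_right, ← Complex.coe_smul, ← Complex.coe_smul, inner_smul_right,
      inner_smul_right, h0]
    push_cast; ring
  have hre : ∀ v, (inner ℂ v (B v) : ℂ).re = k * ri v v + ρ * (inner ℂ v (Y v) : ℂ).re := by
    intro v
    rw [hinner v, Complex.add_re, Complex.ofReal_re, Complex.re_ofReal_mul]
  have him : ∀ v, (inner ℂ v (B v) : ℂ).im = ρ * (inner ℂ v (Y v) : ℂ).im := by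
    intro v
    rw [hinner v, Complex.add_im, Complex.ofReal_im, Complex.im_ofReal_mul, zero_add]
  have hH := IH Y one_pos (fun v => by
    have hv := h v
    have h1 := f1 (by linarith) hv
    have h4 := f4 hv
    have hn := ri_self_nonneg v
    have hX0 : 0 ≤ (inner ℂ v (B v) : ℂ).re := hs v
    have hup : (inner ℂ v (B v) : ℂ).re ≤ ap * ri v v := by
      apply (abs_le_mul_of_sq hap0.le hn _).trans' (le_abs_self _)
      rw [hap2]; linarith [sq_nonneg (inner ℂ v (B v) : ℂ).im]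
    have hlo : am * ri v v ≤ (inner ℂ v (B v) : ℂ).re := by
      apply (sq_le_sq₀ (mul_nonneg ham0.le hn) hX0).mp
      rw [mul_pow, ham2]
      linarith [sq_nonneg (inner ℂ v (B v) : ℂ).im]
    rw [hre v] at hup hlo
    rw [abs_le]
    constructor
    · have : 0 ≤ ρ * ((inner ℂ v (Y v) : ℂ).re + ri v v) := by
        have e : am = k - ρ := by rw [hk, hρ]; ring
        rw [e] at hlo; linarith
      linarith [nonneg_of_mul_nonneg_right this hρ0]
    · have : 0 ≤ ρ * (ri v v - (inner ℂ v (Y v) : ℂ).re) := by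
        have e : ap = k + ρ := by rw [hk, hρ]; ring
        rw [e] at hup; linarith
      linarith [nonneg_of_mul_nonneg_right this hρ0])
  have hD : 0 < 1 + 4 * (ρ ^ 2) ^ 2 := by positivity
  have hb : 0 < 1 / Real.sqrt (1 + 4 * (ρ ^ 2) ^ 2) := by
    have := Real.sqrt_pos.mpr hD
    positivity
  have hb2 : (1 / Real.sqrt (1 + 4 * (ρ ^ 2) ^ 2)) ^ 2 = 1 / (1 + 4 * (ρ ^ 2) ^ 2) := by
    rw [div_pow, Real.sq_sqrt hD.le]; norm_num
  have hJ := IJ Y hb (fun v => abs_le_mul_of_sq hb.le (ri_self_nonneg v) (by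
    rw [hb2]
    have := f3 (by linarith) (h v)
    rw [him v, mul_pow] at this
    rw [div_mul_eq_mul_div, le_div_iff₀ hD, ← hkey]
    linarith))
  have hfin := caseIII_core Y (δ := ρ ^ 2) (by positivity) hδ1
    (fun u v => by have := hH u v; linarith) (fun u w => by
      have h1 := mul_nonneg hD.le (hJ u w)
      rw [hb2] at h1
      have e : (1 + 4 * (ρ ^ 2) ^ 2) * (1 / (1 + 4 * (ρ ^ 2) ^ 2) * ri w w + ri u u - ri u (Y w)
          + ri (Y u) w) = ri w w + (1 + 4 * (ρ ^ 2) ^ 2) * (ri u u - ri u (Y w) + ri (Y u) w) := by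
        field_simp
        ring
      rwa [e] at h1) x
  have hTx : B (B x) - γ • x = Y x + (ρ ^ 2) • (Y (Y x) - x) := by
    have e1 : B (B x) = k • B x + ρ • Y (B x) := hBx (B x)
    rw [e1, hBx x, map_add, map_real_smul, map_real_smul, ← hsum]
    simp only [smul_add, smul_smul, smul_sub, add_smul]
    have e2 : (ρ * k) • Y x = (1 / 2 : ℝ) • Y x := by rw [mul_comm, hkρ]
    have e3 : (k * ρ) • Y x = (1 / 2 : ℝ) • Y x := by rw [hkρ]
    rw [e2, e3]
    module
  rw [hTx]
  exact hfin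

/-- The normalised quadratic inequality. -/
theorem quad_core {B : E →ₗ[ℂ] E} {γ : ℝ} (hγ : 0 ≤ γ) (h : Hyp B γ) (x : E) :
    ri (B (B x) - γ • x) (B (B x) - γ • x) ≤ 4 * ri x x := by
  rcases le_total γ (1 / 2) with h1 | h1
  · exact caseI hγ h1 h x
  rcases le_or_gt γ 1 with h2 | h2
  · exact caseII h1 h2 h x
  rcases sign_const h2 h with h3 | h3
  · exact caseIII_pos h2 h h3 x
  · have h4 : Hyp (-B) γ := by
      intro v
      have := h v
      simpa [inner_neg_right] using this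
    have := caseIII_pos h2 h4 (fun v => by
      rw [LinearMap.neg_apply, ri_neg_right]
      linarith [h3 v]) x
    simpa using this

end Pool.Agent.Helper85.Crouzeix
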