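import Pool.Agent.Helper85.Crouzeix.Core

/-!
# Crouzeix's inequality with constant 2 for polynomials of degree at most two
-/

namespace Pool.Agent.Helper85.Crouzeix

variable {E : Type*} [NormedAddCommGroup E] [InnerProductSpace ℂ E]

theorem inner_self_ofReal (v : E) : (inner ℂ v v : ℂ) = ((‖v‖ ^ 2 : ℝ) : ℂ) := by
  rw [inner_self_eq_norm_sq_to_K]; simp

/-- Homogeneous form of the bound on the numerical range. -/
theorem homog (A : E →ₗ[ℂ] E) (c0 c1 c2 : ℂ) {M : ℝ}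
    (h : ∀ v : E, ‖v‖ = 1 → ‖c0 + c1 * inner ℂ v (A v) + c2 * (inner ℂ v (A v)) ^ 2‖ ≤ M)
    (v : E) :
    ‖c0 * (‖v‖ ^ 2 : ℝ) ^ 2 + c1 * (‖v‖ ^ 2 : ℝ) * inner ℂ v (A v)
      + c2 * (inner ℂ v (A v)) ^ 2‖ ≤ M * (‖v‖ ^ 2) ^ 2 := by
  rcases eq_or_ne v 0 with rfl | hv
  · simp
  have hn : ‖v‖ ≠ 0 := norm_ne_zero_iff.mpr hv
  have hn' : ((‖v‖ : ℝ) : ℂ) ≠ 0 := by exact_mod_cast hn
  have hu : ‖((‖v‖ : ℂ)⁻¹) • v‖ = 1 := by
    rw [norm_smul, norm_inv, Complex.norm_real, norm_norm, inv_mul_cancel₀ hn]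
  have h1 := h _ hu
  have e : (inner ℂ (((‖v‖ : ℂ)⁻¹) • v) (A (((‖v‖ : ℂ)⁻¹) • v)) : ℂ)
      = ((‖v‖ : ℂ) ^ 2)⁻¹ * inner ℂ v (A v) := by
    rw [map_smul, inner_smul_left, inner_smul_right, map_inv₀, Complex.conj_ofReal]
    ring
  rw [e] at h1
  have e2 : c0 * (‖v‖ ^ 2 : ℝ) ^ 2 + c1 * (‖v‖ ^ 2 : ℝ) * inner ℂ v (A v)
      + c2 * (inner ℂ v (A v)) ^ 2
      = (((‖v‖ ^ 2) ^ 2 : ℝ) : ℂ) * (c0 + c1 * (((‖v‖ : ℂ) ^ 2)⁻¹ * inner ℂ v (A v))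
        + c2 * (((‖v‖ : ℂ) ^ 2)⁻¹ * inner ℂ v (A v)) ^ 2) := by
    push_cast
    field_simp
  rw [e2, norm_mul, Complex.norm_real, Real.norm_of_nonneg (by positivity), mul_comm M]
  exact mul_le_mul_of_nonneg_left h1 (by positivity)

/-- degree at most one -/
theorem linear_case (A : E →ₗ[ℂ] E) (c0 c1 : ℂ) {M : ℝ} (hM : 0 < M)
    (h : ∀ v : E, ‖v‖ = 1 → ‖c0 + c1 * inner ℂ v (A v)‖ ≤ M) (x : E) :
    ‖c0 • x + c1 • A x‖ ≤ 2 * M * ‖x‖ := by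
  have hh : ∀ v : E, ‖c0 * (‖v‖ ^ 2 : ℝ) + c1 * inner ℂ v (A v)‖ ≤ M * ‖v‖ ^ 2 := by
    intro v
    rcases eq_or_ne v 0 with rfl | hv
    · simp
    have h1 := homog A c0 c1 0 (M := M) (by simpa using h) v
    have e : c0 * (‖v‖ ^ 2 : ℝ) ^ 2 + c1 * (‖v‖ ^ 2 : ℝ) * inner ℂ v (A v)
        + 0 * (inner ℂ v (A v)) ^ 2
        = ((‖v‖ ^ 2 : ℝ) : ℂ) * (c0 * (‖v‖ ^ 2 : ℝ) + c1 * inner ℂ v (A v)) := by ring
    have hn : 0 < ‖v‖ ^ 2 := by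
      have := norm_pos_iff.mpr hv
      positivity
    rw [e, norm_mul, Complex.norm_real, Real.norm_of_nonneg hn.le] at h1
    refine le_of_mul_le_mul_left (h1.trans_eq ?_) hn
    ring
  set T : E →ₗ[ℂ] E := ((M⁻¹ : ℝ) : ℂ) • (c0 • LinearMap.id + c1 • A) with hT
  have hTv : ∀ v, ‖(inner ℂ v (T v) : ℂ)‖ ≤ 1 * ri v v := by
    intro v
    have e : (inner ℂ v (T v) : ℂ)
        = ((M⁻¹ : ℝ) : ℂ) * (c0 * (‖v‖ ^ 2 : ℝ) + c1 * inner ℂ v (A v)) := by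
      simp only [hT, LinearMap.smul_apply, LinearMap.add_apply, LinearMap.id_apply,
        inner_smul_right, inner_add_right, inner_self_ofReal]
    rw [e, norm_mul, Complex.norm_real, Real.norm_of_nonneg (by positivity), ri_self, one_mul]
    calc M⁻¹ * _ ≤ M⁻¹ * (M * ‖v‖ ^ 2) := mul_le_mul_of_nonneg_left (hh v) (by positivity)
      _ = ‖v‖ ^ 2 := by rw [← mul_assoc, inv_mul_cancel₀ hM.ne', one_mul]
  have key := norm_le_two T (fun v => (Complex.abs_re_le_norm _).trans (hTv v))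
    (fun v => (Complex.abs_im_le_norm _).trans (hTv v)) x
  rw [ri_self, ri_self] at key
  have h2 : ‖T x‖ ≤ 2 * ‖x‖ := by
    apply (sq_le_sq₀ (norm_nonneg _) (by positivity)).mp
    rw [mul_pow]; linarith
  have e : T x = ((M⁻¹ : ℝ) : ℂ) • (c0 • x + c1 • A x) := by
    simp only [hT, LinearMap.smul_apply, LinearMap.add_apply, LinearMap.id_apply]
  rw [e, norm_smul, Complex.norm_real, Real.norm_of_nonneg (by positivity)] at h2
  rw [inv_mul_le_iff₀ hM] at h2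
  linarith

/-- There is a unimodular `φ` with `φ ^ 2 * e = |e|`. -/
theorem exists_phase (e : ℂ) : ∃ φ : ℂ, ‖φ‖ = 1 ∧ φ ^ 2 * e = (‖e‖ : ℝ) := by
  rcases eq_or_ne e 0 with rfl | he
  · exact ⟨1, by simp, by simp⟩
  obtain ⟨φ, hφ⟩ := IsAlgClosed.exists_pow_nat_eq (((‖e‖ : ℝ) : ℂ) / e) (n := 2) two_pos
  refine ⟨φ, ?_, ?_⟩
  · have h1 : ‖φ‖ ^ 2 = 1 := by
      rw [← norm_pow, hφ, norm_div, Complex.norm_real, norm_norm,
        div_self (norm_ne_zero_iff.mpr he)]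
    exact (pow_eq_one_iff_of_nonneg (norm_nonneg _) two_ne_zero).mp h1
  · rw [hφ, div_mul_cancel₀ _ he]

/-- The quadratic case. -/
theorem quadratic_case (A : E →ₗ[ℂ] E) (c0 c1 c2 : ℂ) (hc : c2 ≠ 0) {M : ℝ} (hM : 0 < M)
    (h : ∀ v : E, ‖v‖ = 1 → ‖c0 + c1 * inner ℂ v (A v) + c2 * (inner ℂ v (A v)) ^ 2‖ ≤ M)
    (x : E) : ‖c0 • x + c1 • A x + c2 • A (A x)‖ ≤ 2 * M * ‖x‖ := by
  have hc' : 0 < ‖c2‖ := norm_pos_iff.mpr hc
  set z0 : ℂ := -c1 / (2 * c2) with hz0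
  set e : ℂ := z0 ^ 2 - c0 / c2 with he
  have hc1 : c1 = -(2 * c2 * z0) := by rw [hz0]; field_simp
  have hc0 : c0 = c2 * (z0 ^ 2 - e) := by rw [he]; field_simp; ring
  set N : ℝ := M / ‖c2‖ with hN
  have hN0 : 0 < N := by positivity
  set ν : ℝ := Real.sqrt N with hν
  have hν0 : 0 < ν := Real.sqrt_pos.mpr hN0
  have hν2 : ν ^ 2 = N := Real.sq_sqrt hN0.le
  obtain ⟨φ, hφ, hφe⟩ := exists_phase e
  set c : ℂ := φ / (ν : ℝ) with hcdef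
  have hνc : ((ν : ℝ) : ℂ) ≠ 0 := by exact_mod_cast hν0.ne'
  have hNc : ((N : ℝ) : ℂ) ≠ 0 := by exact_mod_cast hN0.ne'
  have hc2N : c ^ 2 = φ ^ 2 / (N : ℝ) := by
    rw [hcdef, div_pow, ← hν2]; push_cast; ring
  have hcn : ‖c ^ 2‖ = N⁻¹ := by
    rw [hc2N, norm_div, norm_pow, hφ, Complex.norm_real, Real.norm_of_nonneg hN0.le]
    simp
  set B : E →ₗ[ℂ] E := c • (A - z0 • LinearMap.id) with hB
  set γ : ℝ := ‖e‖ / N with hγ
  have hγc : ((γ : ℝ) : ℂ) = c ^ 2 * e := by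
    rw [hc2N, hγ]; push_cast; rw [← hφe]; ring
  have hBv : ∀ v, (inner ℂ v (B v) : ℂ) = c * (inner ℂ v (A v) - z0 * (‖v‖ ^ 2 : ℝ)) := by
    intro v
    simp only [hB, LinearMap.smul_apply, LinearMap.sub_apply, LinearMap.id_apply,
      inner_smul_right, inner_sub_right, inner_self_ofReal]
  have hyp : Hyp B γ := by
    intro v
    have h1 := homog A c0 c1 c2 h v
    have h2 : (inner ℂ v (B v) : ℂ) ^ 2 - (γ : ℝ) * (‖v‖ ^ 2 : ℝ) ^ 2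
        = (c ^ 2 / c2) * (c0 * (‖v‖ ^ 2 : ℝ) ^ 2 + c1 * (‖v‖ ^ 2 : ℝ) * inner ℂ v (A v)
          + c2 * (inner ℂ v (A v)) ^ 2) := by
      rw [hBv v, hγc, hc0, hc1]
      field_simp
      ring
    have h3 : ‖(inner ℂ v (B v) : ℂ) ^ 2 - (γ : ℝ) * (‖v‖ ^ 2 : ℝ) ^ 2‖ ≤ (‖v‖ ^ 2) ^ 2 := by
      rw [h2, norm_mul, norm_div, hcn]
      calc N⁻¹ / ‖c2‖ * _ ≤ N⁻¹ / ‖c2‖ * (M * (‖v‖ ^ 2) ^ 2) :=
            mul_le_mul_of_nonneg_left h1 (by positivity)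
        _ = (‖v‖ ^ 2) ^ 2 := by rw [hN]; field_simp
    have h4 : Complex.normSq ((inner ℂ v (B v) : ℂ) ^ 2 - (γ : ℝ) * (‖v‖ ^ 2 : ℝ) ^ 2)
        ≤ ((‖v‖ ^ 2) ^ 2) ^ 2 := by
      rw [Complex.normSq_eq_norm_sq]
      exact pow_le_pow_left₀ (norm_nonneg _) h3 2
    rw [Complex.normSq_apply] at h4
    have e1 : ((inner ℂ v (B v) : ℂ) ^ 2 - (γ : ℝ) * (‖v‖ ^ 2 : ℝ) ^ 2).re
        = (inner ℂ v (B v) : ℂ).re ^ 2 - (inner ℂ v (B v) : ℂ).im ^ 2 - γ * (ri v v) ^ 2 := by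
      rw [ri_self, Complex.sub_re, ← Complex.ofReal_pow, Complex.re_ofReal_mul,
        Complex.ofReal_re, pow_two (inner ℂ v (B v) : ℂ), Complex.mul_re]
      ring
    have e2 : ((inner ℂ v (B v) : ℂ) ^ 2 - (γ : ℝ) * (‖v‖ ^ 2 : ℝ) ^ 2).im
        = 2 * (inner ℂ v (B v) : ℂ).re * (inner ℂ v (B v) : ℂ).im := by
      rw [Complex.sub_im, ← Complex.ofReal_pow, Complex.im_ofReal_mul,
        Complex.ofReal_im, pow_two (inner ℂ v (B v) : ℂ), Complex.mul_im]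
      ring
    rw [e1, e2] at h4
    calc _ = _ := by rw [pow_two, pow_two (2 * (inner ℂ v (B v) : ℂ).re * _)]
      _ ≤ _ := h4
      _ = _ := by rw [ri_self]; ring
  have key := quad_core (by positivity) hyp x
  rw [ri_self, ri_self] at key
  have h2 : ‖B (B x) - γ • x‖ ≤ 2 * ‖x‖ := by
    apply (sq_le_sq₀ (norm_nonneg _) (by positivity)).mp
    rw [mul_pow]; linarith
  have e3 : B (B x) - γ • x = (c ^ 2 / c2) • (c0 • x + c1 • A x + c2 • A (A x)) := by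
    rw [← Complex.coe_smul, hγc, hc0, hc1]
    simp only [hB, LinearMap.smul_apply, LinearMap.sub_apply, LinearMap.id_apply, map_smul,
      map_sub, smul_sub, smul_add, smul_smul]
    have e4 : c ^ 2 / c2 * (c2 * (z0 ^ 2 - e)) = c ^ 2 * (z0 ^ 2 - e) := by field_simp
    have e5 : c ^ 2 / c2 * -(2 * c2 * z0) = -(2 * c ^ 2 * z0) := by field_simp
    have e6 : c ^ 2 / c2 * c2 = c ^ 2 := by field_simp
    rw [e4, e5, e6]
    module
  rw [e3, norm_smul, norm_div, hcn] at h2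
  have h5 : N⁻¹ / ‖c2‖ = M⁻¹ := by rw [hN]; field_simp
  rw [h5, inv_mul_le_iff₀ hM] at h2
  linarith

/-- **Crouzeix's inequality with constant 2 for polynomials of degree at most two**, pointwise
form. -/
theorem pointwise (A : E →ₗ[ℂ] E) (c0 c1 c2 : ℂ) {M : ℝ} (hM : 0 < M)
    (h : ∀ v : E, ‖v‖ = 1 → ‖c0 + c1 * inner ℂ v (A v) + c2 * (inner ℂ v (A v)) ^ 2‖ ≤ M)
    (x : E) : ‖c0 • x + c1 • A x + c2 • A (A x)‖ ≤ 2 * M * ‖x‖ := by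
  rcases eq_or_ne c2 0 with rfl | hc
  · have := linear_case A c0 c1 hM (by simpa using h) x
    simpa using this
  · exact quadratic_case A c0 c1 c2 hc hM h x

/-- The set of values of `|p|` on the numerical range is bounded. -/
theorem bddAbove (A : E →L[ℂ] E) (p : Polynomial ℂ) :
    BddAbove {r : ℝ | ∃ x : E, ‖x‖ = 1 ∧ r = ‖p.eval (inner ℂ x (A x))‖} := by
  have hcomp : IsCompact (Metric.closedBall (0 : ℂ) ‖A‖) := isCompact_closedBall 0 ‖A‖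
  obtain ⟨C, hC⟩ := hcomp.exists_bound_of_continuousOn (f := fun z => p.eval z)
    p.continuous.continuousOn
  refine ⟨C, ?_⟩
  rintro r ⟨x, hx, rfl⟩
  apply hC
  rw [mem_closedBall_zero_iff]
  calc ‖(inner ℂ x (A x) : ℂ)‖ ≤ ‖x‖ * ‖A x‖ := norm_inner_le_norm _ _
    _ ≤ ‖x‖ * (‖A‖ * ‖x‖) := mul_le_mul_of_nonneg_left (A.le_opNorm x) (norm_nonneg _)
    _ = ‖A‖ := by rw [hx]; ring

/-- **Crouzeix's inequality with constant 2 for polynomials of degree at most two.** -/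
theorem main (A : E →L[ℂ] E) (p : Polynomial ℂ) (hp : p.natDegree ≤ 2) :
    BddAbove {r : ℝ | ∃ x : E, ‖x‖ = 1 ∧ r = ‖p.eval (inner ℂ x (A x))‖} ∧
    ‖Polynomial.aeval A p‖
      ≤ 2 * sSup {r : ℝ | ∃ x : E, ‖x‖ = 1 ∧ r = ‖p.eval (inner ℂ x (A x))‖} := by
  refine ⟨bddAbove A p, ?_⟩
  set S := {r : ℝ | ∃ x : E, ‖x‖ = 1 ∧ r = ‖p.eval (inner ℂ x (A x))‖} with hS
  have hS0 : 0 ≤ sSup S := Real.sSup_nonneg (by rintro r ⟨x, -, rfl⟩; exact norm_nonneg _)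
  have hev : ∀ z : ℂ, p.eval z = p.coeff 0 + p.coeff 1 * z + p.coeff 2 * z ^ 2 := by
    intro z
    rw [Polynomial.eval_eq_sum_range' (Nat.lt_succ_of_le hp)]
    simp [Finset.sum_range_succ]
  have hae : ∀ x : E, Polynomial.aeval A p x
      = p.coeff 0 • x + p.coeff 1 • A x + p.coeff 2 • A (A x) := by
    intro x
    rw [Polynomial.aeval_eq_sum_range' (Nat.lt_succ_of_le hp)]
    simp [Finset.sum_range_succ, pow_two]
  apply le_of_forall_pos_le_add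
  intro ε hε
  have hM : 0 < sSup S + ε / 2 := by positivity
  have : ‖Polynomial.aeval A p‖ ≤ 2 * (sSup S + ε / 2) := by
    apply ContinuousLinearMap.opNorm_le_bound _ (by positivity)
    intro x
    rw [hae x]
    refine pointwise (A : E →ₗ[ℂ] E) _ _ _ hM ?_ x
    intro v hv
    have h1 : ‖p.eval (inner ℂ v (A v))‖ ≤ sSup S := le_csSup (bddAbove A p) ⟨v, hv, rfl⟩
    rw [hev] at h1
    exact h1.trans (by linarith)
  linarith

end Pool.Agent.Helper85.Crouzeix
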